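import Pool.Agent.helper52.IR.Spec
import Pool.Agent.helper93.ER.LSM

/-!
# MP_07c750, project IR: row LOB (few boxes have small mass outside of `Low`)
-/

open scoped MatrixGroups ContDiff Topology UpperHalfPlane ComplexConjugate
open UpperHalfPlane MeasureTheory Filter Set

set_option autoImplicit false

namespace Pool.Agent.IR

open Pool.Agent.RS
open Pool.Agent.MS (bq BB BA SF pf)
open Pool.Agent.HV (FW)
open Pool.Agent.EN (XG MG mkX mkM fl pr)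
open Pool.Agent.ER (Low LowJ Bow LSM_O LSM_mem LSM_openR LDE_conj)

theorem LOB_inv (h1 h2 : SL(2, ℝ)) :
    (h1⁻¹ * h2).1 0 0 = h1.1 1 1 * h2.1 0 0 - h1.1 0 1 * h2.1 1 0 ∧ (h1⁻¹ * h2).1 0 1 = h1.1 1 1 * h2.1 0 1 - h1.1 0 1 * h2.1 1 1 ∧
    (h1⁻¹ * h2).1 1 0 = h1.1 0 0 * h2.1 1 0 - h1.1 1 0 * h2.1 0 0 ∧ (h1⁻¹ * h2).1 1 1 = h1.1 0 0 * h2.1 1 1 - h1.1 1 0 * h2.1 0 1 := by
  have e : (h1⁻¹ * h2).1 = (h1⁻¹).1 * h2.1 := rfl
  have e2 : (h1⁻¹ : SL(2, ℝ)).1 = !![h1.1 1 1, -h1.1 0 1; -h1.1 1 0, h1.1 0 0] := by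
    rw [Matrix.SpecialLinearGroup.SL2_inv_expl]
    rfl
  rw [e, e2]
  refine ⟨?_, ?_, ?_, ?_⟩
  · simp [Matrix.mul_apply, Fin.sum_univ_two]; ring
  · simp [Matrix.mul_apply, Fin.sum_univ_two]; ring
  · simp [Matrix.mul_apply, Fin.sum_univ_two]; ring
  · simp [Matrix.mul_apply, Fin.sum_univ_two]; ring

/-- real estimates -/
theorem LOB_diag (b x y z w : ℝ) (hb : 0 < b) (hb1 : b ≤ 1 / 12) (hx : |x - 1| ≤ b) (hy : |y - 1| ≤ b) (hz : |z| ≤ b) (hw : |w| ≤ b) :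
    |x * y - z * w - 1| < 3 * b := by
  have h1 : |z * w| ≤ b * b := by rw [abs_mul]; exact mul_le_mul hz hw (abs_nonneg _) hb.le
  have h2 : |(x - 1) * (y - 1)| ≤ b * b := by rw [abs_mul]; exact mul_le_mul hx hy (abs_nonneg _) hb.le
  have h3 := abs_le.1 h1
  have h4 := abs_le.1 h2
  have h5 := abs_le.1 hx
  have h6 := abs_le.1 hy
  have h7 : b * b ≤ b * (1 / 12) := mul_le_mul_of_nonneg_left hb1 hb.le
  rw [abs_lt]
  constructor
  · nlinarith [h3.1, h3.2, h4.1, h4.2, h5.1, h5.2, h6.1, h6.2]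
  · nlinarith [h3.1, h3.2, h4.1, h4.2, h5.1, h5.2, h6.1, h6.2]

theorem LOB_off (b E x y z w : ℝ) (hE : 0 ≤ E) (hb : 0 < b) (hb1 : b ≤ 1 / 12) (hx : |x - 1| ≤ b) (hy : E * |y| ≤ b) (hz : E * |z| ≤ b) (hw : |w - 1| ≤ b) :
    E * |x * y - z * w| < 3 * b := by
  have h1 : |x| ≤ 13 / 12 := by
    have := abs_le.1 hx
    rw [abs_le]; constructor <;> linarith
  have h2 : |w| ≤ 13 / 12 := by
    have := abs_le.1 hw
    rw [abs_le]; constructor <;> linarith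
  have h3 : |x * y - z * w| ≤ |x| * |y| + |z| * |w| := by
    have := abs_sub (x * y) (z * w)
    rwa [abs_mul, abs_mul] at this
  have h4 : E * |x * y - z * w| ≤ |x| * (E * |y|) + (E * |z|) * |w| := by
    have := mul_le_mul_of_nonneg_left h3 hE
    nlinarith
  have h5 : |x| * (E * |y|) ≤ 13 / 12 * b := mul_le_mul h1 hy (by positivity) (by norm_num)
  have h6 : (E * |z|) * |w| ≤ b * (13 / 12) := mul_le_mul hz h2 (abs_nonneg _) hb.le
  linarith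

/-- the symmetric box at the time `q` -/
def LOB_B (Γ : Subgroup SL(2, ℝ)) (b : ℝ) (q : ℕ) (g : SL(2, ℝ)) : Set (XG Γ) :=
  {x | ∃ h : SL(2, ℝ), |h.1 0 0 - 1| ≤ b ∧ |h.1 1 1 - 1| ≤ b ∧ Real.exp q * |h.1 0 1| ≤ b ∧ Real.exp q * |h.1 1 0| ≤ b ∧ x = mkX Γ (g * h)}

theorem LOB_sub (Γ : Subgroup SL(2, ℝ)) (b c : ℝ) (q : ℕ) (g : SL(2, ℝ)) (hb : 0 < b) (hb1 : b ≤ 1 / 12) (hc : 3 * b ≤ c) (x : XG Γ) (hx : x ∈ LOB_B Γ b q g) :
    LOB_B Γ b q g ⊆ Bow Γ c q x := by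
  obtain ⟨h1, a1, a2, a3, a4, e1⟩ := hx
  rintro y ⟨h2, b1, b2, b3, b4, e2⟩
  have hE : (0 : ℝ) ≤ Real.exp q := (Real.exp_pos _).le
  have hE1 : (1 : ℝ) ≤ Real.exp q := Real.one_le_exp (Nat.cast_nonneg q)
  have k : ∀ u : ℝ, Real.exp q * |u| ≤ b → |u| ≤ b := by
    intro u hu
    refine le_trans ?_ hu
    nlinarith [abs_nonneg u]
  obtain ⟨i1, i2, i3, i4⟩ := LOB_inv h1 h2
  refine LSM_mem.2 ⟨g * h1, h1⁻¹ * h2, e1, ?_, ?_, ?_, ?_, ?_⟩
  · rw [e2]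
    congr 1
    group
  · rw [i1]
    exact (LOB_diag b _ _ _ _ hb hb1 a2 b1 (k _ a3) (k _ b4)).trans_le hc
  · rw [i4]
    exact (LOB_diag b _ _ _ _ hb hb1 a1 b2 (k _ a4) (k _ b3)).trans_le hc
  · rw [i2]
    exact (LOB_off b _ _ _ _ _ hE hb hb1 a2 b3 a3 b2).trans_le hc
  · rw [i3]
    exact (LOB_off b _ _ _ _ _ hE hb hb1 a1 b4 a4 b1).trans_le hc

theorem LOB_flow (hXFL : EN.XFL_stmt) (Γ : Subgroup SL(2, ℝ)) (A : Finset SL(2, ℝ)) (b : ℝ) (q : ℕ) (hb : 0 ≤ b) (x : XG Γ)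
    (hx : x ∈ BX Γ A b (2 * q)) : ∃ y ∈ A, fl Γ q x ∈ LOB_B Γ b q (y * aM q) := by
  obtain ⟨-, -, -, -, -, -, -, -, hfl, -⟩ := hXFL Γ
  obtain ⟨y, hy, h, ⟨h1, h2, h3, h4⟩, rfl⟩ := hx
  refine ⟨y, hy, (aM q)⁻¹ * h * aM q, ?_, ?_, ?_, ?_, ?_⟩
  · rw [LDE_conj]
    simpa using h1
  · rw [LDE_conj]
    simpa using h2
  · rw [LDE_conj]
    have e : Real.exp q * |Real.exp (-(q : ℝ)) * h.1 0 1| ≤ b := by
      rw [abs_mul, abs_of_pos (Real.exp_pos _), ← mul_assoc, ← Real.exp_add]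
      simpa using h3
    simpa using e
  · rw [LDE_conj]
    have e : Real.exp q * |Real.exp (q : ℝ) * h.1 1 0| ≤ b := by
      rw [abs_mul, abs_of_pos (Real.exp_pos _), ← mul_assoc, ← Real.exp_add]
      have e1 := mul_le_mul_of_nonneg_left h4 (Real.exp_pos ((q : ℝ) + q)).le
      have e2 : Real.exp ((q : ℝ) + q) * (b * Real.exp (-(2 * (q : ℝ)))) = b := by
        rw [mul_left_comm, ← Real.exp_add]
        have : (q : ℝ) + q + -(2 * (q : ℝ)) = 0 := by ring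
        rw [this, Real.exp_zero, mul_one]
      rw [e2] at e1
      exact e1
    simpa using e
  · rw [hfl]
    congr 1
    group

theorem LOB_proof (hFLI : FLI_stmt) (hXFL : EN.XFL_stmt) (hXTX : EN.XTX_stmt) : LOB_stmt := by
  intro Γ μ s hΓ hμ hinv hs δ hδ
  obtain ⟨hX1, hX2, hX3⟩ := hXTX Γ hΓ
  obtain ⟨hflow, -⟩ := hXFL Γ
  have hmeas : ∀ (δ : ℝ) (n : ℕ), Measurable fun x => μ (Bow Γ δ n x) := by
    intro δ n
    have h1 : MeasurableSet {p : XG Γ × XG Γ | p.2 ∈ Bow Γ δ n p.1} := (LSM_openR hXFL Γ δ n).measurableSet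
    exact measurable_measure_prodMk_left h1
  obtain ⟨G, hG⟩ : ∃ G : ℕ → Set (XG Γ), G = fun j => {x | ∀ n : ℕ, j ≤ n →
      μ.real (Bow Γ (1 / (j + 4)) n x) ≤ Real.exp (-((s + 1 / (j + 4)) * (2 * n)))} := ⟨_, rfl⟩
  have hGm : ∀ j, MeasurableSet (G j) := by
    intro j
    have h1 : G j = ⋂ n : ℕ, ⋂ _ : j ≤ n, {x | μ.real (Bow Γ (1 / (j + 4)) n x) ≤ Real.exp (-((s + 1 / (j + 4)) * (2 * n)))} := by
      rw [hG]
      ext x
      simp only [Set.mem_iInter, Set.mem_ofPred_eq]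
    rw [h1]
    refine MeasurableSet.iInter fun n => MeasurableSet.iInter fun _ => ?_
    exact measurableSet_le (hmeas _ n).ennreal_toReal measurable_const
  have hmono : Monotone G := by
    intro i j hij x hx
    rw [hG] at hx ⊢
    intro n hn
    have h0 : ((i : ℝ)) ≤ j := by exact_mod_cast hij
    have h1 : 1 / ((j : ℝ) + 4) ≤ 1 / ((i : ℝ) + 4) := one_div_le_one_div_of_le (by positivity) (by linarith)
    have h2 : Bow Γ (1 / ((j : ℝ) + 4)) n x ⊆ Bow Γ (1 / ((i : ℝ) + 4)) n x := by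
      rintro y ⟨g, h, hx, hy, hb⟩
      exact ⟨g, h, hx, hy, fun t ht i k => (hb t ht i k).trans_le h1⟩
    refine (measureReal_mono h2 (measure_ne_top _ _)).trans ((hx n (hij.trans hn)).trans (Real.exp_le_exp.2 ?_))
    have h3 : (0 : ℝ) ≤ (n : ℝ) := Nat.cast_nonneg n
    nlinarith
  have hcov : (Low Γ μ s)ᶜ ⊆ ⋃ j, G j := by
    intro x hxL
    have hx : ¬ ∀ δ : ℝ, 0 < δ → ∀ ε : ℝ, 0 < ε → ∃ᶠ n : ℕ in atTop, Real.exp (-((s + ε) * (2 * n))) ≤ μ.real (Bow Γ δ n x) := hxL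
    push Not at hx
    obtain ⟨δ, hδ, ε, hε, hev⟩ := hx
    rw [Filter.eventually_atTop] at hev
    obtain ⟨n0, hn0⟩ := hev
    obtain ⟨j, hj⟩ := exists_nat_gt (max (n0 : ℝ) (max (1 / δ) (1 / ε)))
    have hj1 : (n0 : ℝ) < j := (le_max_left _ _).trans_lt hj
    have hj2 : 1 / δ < j := ((le_max_left _ _).trans (le_max_right _ _)).trans_lt hj
    have hj3 : 1 / ε < j := ((le_max_right _ _).trans (le_max_right _ _)).trans_lt hj
    have hjδ : 1 / ((j : ℝ) + 4) ≤ δ := by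
      rw [div_le_iff₀ (by positivity)]
      rw [div_lt_iff₀ hδ] at hj2
      nlinarith
    have hjε : 1 / ((j : ℝ) + 4) ≤ ε := by
      rw [div_le_iff₀ (by positivity)]
      rw [div_lt_iff₀ hε] at hj3
      nlinarith
    rw [Set.mem_iUnion]
    refine ⟨j, ?_⟩
    rw [hG]
    intro n hn
    have hnn : n0 ≤ n := by
      have h1 : n0 < j := by exact_mod_cast hj1
      omega
    have h1 := (hn0 n hnn).le
    have h2 : Bow Γ (1 / ((j : ℝ) + 4)) n x ⊆ Bow Γ δ n x := by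
      rintro y ⟨g, h, hx, hy, hb⟩
      exact ⟨g, h, hx, hy, fun t ht i k => (hb t ht i k).trans_le hjδ⟩
    refine (measureReal_mono h2 (measure_ne_top _ _)).trans (h1.trans (Real.exp_le_exp.2 ?_))
    have h3 : (0 : ℝ) ≤ (n : ℝ) := Nat.cast_nonneg n
    nlinarith
  -- the choice of `j`
  obtain ⟨j, hj⟩ : ∃ j, μ.real ((⋃ j, G j) \ G j) ≤ δ / 2 := by
    have h1 : Tendsto (fun j => μ ((⋃ j, G j) \ G j)) atTop (𝓝 0) := by
      have h2 : Tendsto (fun j => μ ((⋃ j, G j) \ G j)) atTop (𝓝 (μ (⋂ j, ((⋃ j, G j) \ G j)))) := by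
        refine tendsto_measure_iInter_atTop (fun j => ((MeasurableSet.iUnion hGm).diff (hGm j)).nullMeasurableSet) ?_ ⟨0, measure_ne_top _ _⟩
        intro i j hij
        exact Set.diff_subset_diff_right (hmono hij)
      have h3 : (⋂ j, ((⋃ j, G j) \ G j)) = ∅ := by
        ext x
        simp only [Set.mem_iInter, Set.mem_diff, Set.mem_iUnion, Set.mem_empty_iff_false, iff_false]
        intro hx
        obtain ⟨i, hi⟩ := (hx 0).1
        exact (hx i).2 hi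
      rw [h3, measure_empty] at h2
      exact h2
    have h4 := (ENNReal.tendsto_toReal ENNReal.zero_ne_top).comp h1
    have h5 : ∀ᶠ j in atTop, μ.real ((⋃ j, G j) \ G j) < δ / 2 := by
      have := h4.eventually (gt_mem_nhds (by simpa using half_pos hδ : ENNReal.toReal 0 < δ / 2))
      exact this
    obtain ⟨j, hj⟩ := h5.exists
    exact ⟨j, hj.le⟩
  have hj4 : (4 : ℝ) ≤ (j : ℝ) + 4 := by
    have : (0 : ℝ) ≤ (j : ℝ) := Nat.cast_nonneg j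
    linarith
  obtain ⟨c, hc⟩ : ∃ c : ℝ, c = 1 / ((j : ℝ) + 4) := ⟨_, rfl⟩
  have hc0 : 0 < c := by rw [hc]; positivity
  have hc1 : c ≤ 1 / 4 := by rw [hc]; exact one_div_le_one_div_of_le (by norm_num) hj4
  refine ⟨c / 3, by positivity, ?_⟩
  intro b hb hbc
  obtain ⟨q1, hq1⟩ : ∃ q1 : ℕ, ∀ q : ℕ, q1 ≤ q → Real.exp (-(c * (2 * q))) ≤ δ / 2 := by
    obtain ⟨q1, hq1⟩ := exists_nat_gt (-(Real.log (δ / 2)) / (2 * c))
    refine ⟨q1, fun q hq => ?_⟩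
    have h1 : (q1 : ℝ) ≤ q := by exact_mod_cast hq
    rw [div_lt_iff₀ (by positivity)] at hq1
    have h2 : -(c * (2 * q)) ≤ Real.log (δ / 2) := by nlinarith
    calc Real.exp (-(c * (2 * q))) ≤ Real.exp (Real.log (δ / 2)) := Real.exp_le_exp.2 h2
      _ = δ / 2 := Real.exp_log (half_pos hδ)
  refine ⟨max j q1, ?_⟩
  intro q hq A hA
  have hqj : j ≤ q := (le_max_left _ _).trans hq
  have hq2 := hq1 q ((le_max_right _ _).trans hq)
  -- the flow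
  have hcont : ∀ t : ℝ, Continuous (fl Γ t) := by
    intro t
    exact hflow.cont.comp (Continuous.prodMk continuous_const continuous_id)
  have hle : ∀ (t : ℝ) (S : Set (XG Γ)), μ (fl Γ t ⁻¹' S) ≤ μ S := by
    intro t S
    calc μ (fl Γ t ⁻¹' S) ≤ μ (fl Γ t ⁻¹' (toMeasurable μ S)) := measure_mono (Set.preimage_mono (subset_toMeasurable μ S))
      _ = (μ.map (fl Γ t)) (toMeasurable μ S) := (Measure.map_apply (hcont t).measurable (measurableSet_toMeasurable μ S)).symm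
      _ = μ S := by rw [hinv, measure_toMeasurable]
  have hS : BX Γ A b (2 * q) \ Low Γ μ s ⊆ fl Γ q ⁻¹' (((⋃ j, G j) \ G j) ∪ ⋃ y ∈ A, (G j ∩ LOB_B Γ b q (y * aM q))) := by
    rintro x ⟨hx, hxL⟩
    obtain ⟨y, hy, hyx⟩ := LOB_flow hXFL Γ A b q hb.le x hx
    have h1 : fl Γ q x ∉ Low Γ μ s := by
      intro h2
      have h3 := hFLI Γ μ s (-q) _ hΓ hμ hinv h2
      rw [← hflow.add, neg_add_cancel, hflow.zero] at h3
      exact hxL h3
    have h2 : fl Γ q x ∈ ⋃ j, G j := hcov h1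
    by_cases h3 : fl Γ q x ∈ G j
    · right
      simp only [Set.mem_iUnion]
      exact ⟨y, hy, h3, hyx⟩
    · left
      exact ⟨h2, h3⟩
  have hterm : ∀ y ∈ A, μ.real (G j ∩ LOB_B Γ b q (y * aM q)) ≤ Real.exp (-((s + c) * (2 * q))) := by
    intro y hy
    rcases (G j ∩ LOB_B Γ b q (y * aM q)).eq_empty_or_nonempty with h0 | ⟨x0, hx0, hx1⟩
    · rw [h0, measureReal_empty]
      positivity
    · have h1 := LOB_sub Γ b c q (y * aM q) hb (by linarith) (by linarith) x0 hx1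
      have h2 : μ.real (G j ∩ LOB_B Γ b q (y * aM q)) ≤ μ.real (Bow Γ c q x0) :=
        measureReal_mono (Set.inter_subset_right.trans h1) (measure_ne_top _ _)
      rw [hG] at hx0
      have h3 := hx0 q hqj
      rw [← hc] at h3
      exact h2.trans h3
  have h1 : μ (BX Γ A b (2 * q) \ Low Γ μ s) ≤ μ (((⋃ j, G j) \ G j) ∪ ⋃ y ∈ A, (G j ∩ LOB_B Γ b q (y * aM q))) :=
    (measure_mono hS).trans (hle _ _)
  have h2 : μ.real (BX Γ A b (2 * q) \ Low Γ μ s) ≤ μ.real (((⋃ j, G j) \ G j) ∪ ⋃ y ∈ A, (G j ∩ LOB_B Γ b q (y * aM q))) :=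
    ENNReal.toReal_mono (measure_ne_top _ _) h1
  have h3 : μ.real (⋃ y ∈ A, (G j ∩ LOB_B Γ b q (y * aM q))) ≤ ∑ y ∈ A, μ.real (G j ∩ LOB_B Γ b q (y * aM q)) :=
    measureReal_biUnion_finset_le _ _
  have h4 : ∑ y ∈ A, μ.real (G j ∩ LOB_B Γ b q (y * aM q)) ≤ A.card * Real.exp (-((s + c) * (2 * q))) := by
    have := Finset.sum_le_card_nsmul A (fun y => μ.real (G j ∩ LOB_B Γ b q (y * aM q))) _ hterm
    rwa [nsmul_eq_mul] at this
  have h5 : (A.card : ℝ) * Real.exp (-((s + c) * (2 * q))) ≤ δ / 2 := by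
    calc (A.card : ℝ) * Real.exp (-((s + c) * (2 * q))) ≤ Real.exp (s * (2 * q)) * Real.exp (-((s + c) * (2 * q))) :=
          mul_le_mul_of_nonneg_right hA (Real.exp_pos _).le
      _ = Real.exp (-(c * (2 * q))) := by rw [← Real.exp_add]; congr 1; ring
      _ ≤ δ / 2 := hq2
  have h6 := measureReal_union_le (μ := μ) ((⋃ j, G j) \ G j) (⋃ y ∈ A, (G j ∩ LOB_B Γ b q (y * aM q)))
  linarith

end Pool.Agent.IR
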